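import Pool.Agent.Helper30.GR.Rounds

/-!
# Rounding the fractional colouring, balls of the graph, assembly
-/

set_option autoImplicit false

namespace Pool.Agent.Helper30.GR

open Finset

/-- a multiset of independent sets which covers every vertex many times -/
theorem rounding {V : Type} [Fintype V] [DecidableEq V] (G : SimpleGraph V) (μ : Finset V → ℝ)
    (L : ℕ) (hL : 1 ≤ L) (h0 : ∀ I, 0 ≤ μ I)
    (hi : ∀ I, μ I ≠ 0 → G.IsIndepSet (I : Set V))
    (hc : ∀ v, 1 ≤ ∑ I ∈ univ.filter (fun I : Finset V => v ∈ I), μ I)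
    (ht : ∑ I, μ I ≤ 7 * L) :
    ∃ (ι : Type) (_ : Fintype ι) (_ : DecidableEq ι) (I : ι → Finset V),
      (∀ t, G.IsIndepSet (I t : Set V)) ∧
      (∀ v, Fintype.card ι ≤ (8 * L) * #(univ.filter fun t => v ∈ I t)) ∧
      (∀ v, 0 < #(univ.filter fun t => v ∈ I t)) := by
  set m : ℕ := Fintype.card (Finset V) with hm
  have hm1 : 1 ≤ m := Fintype.card_pos
  set n : Finset V → ℕ := fun I => ⌈(m : ℝ) * μ I⌉₊ with hn
  have hcard : ∀ v, #(univ.filter fun t : (Σ I : Finset V, Fin (n I)) => v ∈ t.1) =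
      ∑ I ∈ univ.filter (fun I : Finset V => v ∈ I), n I := by
    intro v
    have : (univ.filter fun t : (Σ I : Finset V, Fin (n I)) => v ∈ t.1) =
        (univ.filter (fun I : Finset V => v ∈ I)).sigma (fun I => (univ : Finset (Fin (n I)))) := by
      ext ⟨I, t⟩; simp
    rw [this, card_sigma]
    simp
  have hge : ∀ v, (m : ℝ) ≤ (#(univ.filter fun t : (Σ I : Finset V, Fin (n I)) => v ∈ t.1) : ℝ) := by
    intro v
    rw [hcard, Nat.cast_sum]
    calc (m : ℝ) = m * 1 := by ring
      _ ≤ m * ∑ I ∈ univ.filter (fun I : Finset V => v ∈ I), μ I :=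
          mul_le_mul_of_nonneg_left (hc v) (Nat.cast_nonneg _)
      _ = ∑ I ∈ univ.filter (fun I : Finset V => v ∈ I), m * μ I := by rw [mul_sum]
      _ ≤ ∑ I ∈ univ.filter (fun I : Finset V => v ∈ I), (n I : ℝ) :=
          sum_le_sum fun I _ => Nat.le_ceil _
  have hle : (Fintype.card (Σ I : Finset V, Fin (n I)) : ℝ) ≤ m * (8 * L) := by
    rw [Fintype.card_sigma, Nat.cast_sum]
    have h1 : ∀ I : Finset V, ((Fintype.card (Fin (n I)) : ℕ) : ℝ) ≤ m * μ I + 1 := by
      intro I
      rw [Fintype.card_fin]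
      exact (Nat.ceil_lt_add_one (mul_nonneg (Nat.cast_nonneg _) (h0 I))).le
    calc ∑ I : Finset V, ((Fintype.card (Fin (n I)) : ℕ) : ℝ) ≤ ∑ I : Finset V, (m * μ I + 1) :=
          sum_le_sum fun I _ => h1 I
      _ = m * ∑ I, μ I + m := by
          rw [sum_add_distrib, ← mul_sum]; simp [hm]
      _ ≤ m * (7 * L) + m * L := by
          have a1 : (m : ℝ) * ∑ I, μ I ≤ m * (7 * L) :=
            mul_le_mul_of_nonneg_left ht (Nat.cast_nonneg _)
          have a2 : (m : ℝ) ≤ m * L := by
            have : (1 : ℝ) ≤ L := by exact_mod_cast hL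
            nlinarith [Nat.cast_nonneg (α := ℝ) m]
          linarith
      _ = m * (8 * L) := by ring
  refine ⟨(Σ I : Finset V, Fin (n I)), inferInstance, inferInstance, fun t => t.1, ?_, ?_, ?_⟩
  · rintro ⟨I, t⟩
    apply hi
    intro h
    have h2 : n I = 0 := by simp [hn, h]
    have := t.isLt
    omega
  · intro v
    have h1 := hge v
    have h2 : (Fintype.card (Σ I : Finset V, Fin (n I)) : ℝ) ≤
        ((8 * L : ℕ) : ℝ) * (#(univ.filter fun t : (Σ I : Finset V, Fin (n I)) => v ∈ t.1) : ℝ) := by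
      push_cast
      have h3 : (0 : ℝ) ≤ 8 * (L : ℝ) := by positivity
      calc (Fintype.card (Σ I : Finset V, Fin (n I)) : ℝ) ≤ m * (8 * L) := hle
        _ = 8 * L * m := by ring
        _ ≤ _ := mul_le_mul_of_nonneg_left h1 h3
    exact_mod_cast h2
  · intro v
    have h1 := hge v
    have h2 : (1 : ℝ) ≤ m := by exact_mod_cast hm1
    have h3 : (0 : ℝ) < (#(univ.filter fun t : (Σ I : Finset V, Fin (n I)) => v ∈ t.1) : ℝ) := by
      linarith
    exact_mod_cast h3

section balls

variable {V : Type} [Fintype V] [DecidableEq V] (G : SimpleGraph V)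

/-- truncated distance -/
noncomputable def tdist (R : ℕ) (v u : V) : ℕ := (min (G.edist v u) ((R + 1 : ℕ) : ℕ∞)).toNat

variable {G}

omit [Fintype V] [DecidableEq V] in
theorem coe_tdist (R : ℕ) (v u : V) :
    ((tdist G R v u : ℕ) : ℕ∞) = min (G.edist v u) ((R + 1 : ℕ) : ℕ∞) := by
  unfold tdist
  apply ENat.natCast_toNat
  exact ne_top_of_le_ne_top (ENat.natCast_ne_top _) (min_le_right _ _)

omit [Fintype V] [DecidableEq V] in
theorem tdist_le_iff {R : ℕ} {v u : V} : tdist G R v u ≤ R ↔ G.edist v u ≤ (R : ℕ∞) := by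
  have h := coe_tdist (G := G) R v u
  constructor
  · intro hh
    have h1 : ((tdist G R v u : ℕ) : ℕ∞) ≤ (R : ℕ∞) := by exact_mod_cast hh
    rw [h] at h1
    rcases min_le_iff.1 h1 with h2 | h2
    · exact h2
    · have : R + 1 ≤ R := by exact_mod_cast h2
      omega
  · intro hh
    have h1 : ((tdist G R v u : ℕ) : ℕ∞) ≤ (R : ℕ∞) := by
      rw [h]; exact (min_le_left _ _).trans hh
    exact_mod_cast h1

omit [Fintype V] [DecidableEq V] in
theorem tdist_self (R : ℕ) (v : V) : tdist G R v v = 0 := by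
  unfold tdist; simp

omit [Fintype V] [DecidableEq V] in
theorem tdist_adj (R : ℕ) {v w : V} (u : V) (h : G.Adj v w) :
    tdist G R w u ≤ tdist G R v u + 1 := by
  have h1 := coe_tdist (G := G) R v u
  have h2 := coe_tdist (G := G) R w u
  have h3 : G.edist w u ≤ G.edist v u + 1 := by
    have := G.edist_triangle (u := w) (v := v) (w := u)
    rw [SimpleGraph.edist_eq_one_iff_adj.2 h.symm, add_comm] at this
    exact this
  have h4 : ((tdist G R w u : ℕ) : ℕ∞) ≤ ((tdist G R v u + 1 : ℕ) : ℕ∞) := by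
    rw [Nat.cast_add, Nat.cast_one, h1, h2]
    rcases le_total (G.edist v u) ((R + 1 : ℕ) : ℕ∞) with hh | hh
    · rw [min_eq_left hh]
      exact (min_le_left _ _).trans h3
    · rw [min_eq_right hh]
      exact (min_le_right _ _).trans le_self_add
  exact_mod_cast h4

open Classical in
/-- size of balls in terms of the maximum degree -/
theorem card_ball [DecidableRel G.Adj] {d : ℕ} (hd : ∀ v, G.degree v ≤ d) (v : V) (n : ℕ) :
    #(univ.filter fun u => G.edist v u ≤ (n : ℕ∞)) ≤ (d + 1) ^ n := by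
  induction n with
  | zero =>
    have : (univ.filter fun u => G.edist v u ≤ ((0 : ℕ) : ℕ∞)) ⊆ {v} := by
      intro u hu
      simp only [mem_filter, mem_univ, true_and, Nat.cast_zero, nonpos_iff_eq_zero,
        SimpleGraph.edist_eq_zero_iff] at hu
      simp [hu]
    exact (card_le_card this).trans (by simp)
  | succ n ih =>
    have hsub : (univ.filter fun u => G.edist v u ≤ ((n + 1 : ℕ) : ℕ∞)) ⊆
        (univ.filter fun u => G.edist v u ≤ (n : ℕ∞)).biUnion
          fun w => insert w (G.neighborFinset w) := by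
      intro u hu
      simp only [mem_filter, mem_univ, true_and] at hu
      have hne : G.edist v u ≠ ⊤ := ne_top_of_le_ne_top (ENat.natCast_ne_top _) hu
      obtain ⟨p, hp⟩ := SimpleGraph.exists_walk_of_edist_ne_top hne
      rw [← hp] at hu
      have hlen : p.length ≤ n + 1 := by exact_mod_cast hu
      rw [mem_biUnion]
      by_cases hle : p.length ≤ n
      · refine ⟨u, ?_, mem_insert_self _ _⟩
        rw [mem_filter]
        refine ⟨mem_univ _, ?_⟩
        rw [← hp]; exact_mod_cast hle
      · -- last edge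
        have hq : 0 < p.reverse.length := by rw [SimpleGraph.Walk.length_reverse]; omega
        obtain ⟨w, hw, q, hq'⟩ : ∃ (w : V) (hw : G.Adj u w) (q : G.Walk w v),
            p.reverse = SimpleGraph.Walk.cons hw q := by
          cases hpr : p.reverse with
          | nil => rw [hpr] at hq; simp at hq
          | cons h q => exact ⟨_, h, q, rfl⟩
        refine ⟨w, ?_, ?_⟩
        · rw [mem_filter]
          refine ⟨mem_univ _, ?_⟩
          have h1 : q.reverse.length ≤ n := by
            have h2 := congrArg SimpleGraph.Walk.length hq'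
            rw [SimpleGraph.Walk.length_reverse, SimpleGraph.Walk.length_cons] at h2
            rw [SimpleGraph.Walk.length_reverse]; omega
          exact (SimpleGraph.edist_le q.reverse).trans (by exact_mod_cast h1)
        · apply mem_insert_of_mem
          rw [SimpleGraph.mem_neighborFinset]; exact hw.symm
    refine (card_le_card hsub).trans (card_biUnion_le.trans ?_)
    calc ∑ w ∈ univ.filter (fun u => G.edist v u ≤ (n : ℕ∞)), #(insert w (G.neighborFinset w))
        ≤ ∑ _w ∈ univ.filter (fun u => G.edist v u ≤ (n : ℕ∞)), (d + 1) := by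
          apply sum_le_sum
          intro w _
          refine (card_insert_le _ _).trans ?_
          rw [SimpleGraph.card_neighborFinset_eq_degree]
          exact Nat.add_le_add_right (hd w) 1
      _ = #(univ.filter fun u => G.edist v u ≤ (n : ℕ∞)) * (d + 1) := by
          rw [sum_const, smul_eq_mul]
      _ ≤ (d + 1) ^ n * (d + 1) := Nat.mul_le_mul_right _ ih
      _ = (d + 1) ^ (n + 1) := by ring

end balls

theorem two_pow_clog (d : ℕ) : d + 1 ≤ 2 ^ (Nat.clog 2 d + 1) := by
  rcases Nat.eq_zero_or_pos d with h | h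
  · subst h; simp
  · have h1 := Nat.le_pow_clog (b := 2) (by norm_num) d
    rw [pow_succ]; omega

/-- the growth theorem -/
theorem main {V : Type} [Fintype V] [DecidableEq V] (G : SimpleGraph V) [DecidableRel G.Adj]
    (d a R0 : ℕ) (ha : 1 ≤ a) (hd : ∀ v, G.degree v ≤ d)
    (hind : ∀ S : Finset V, ∃ I ⊆ S, G.IsIndepSet (I : Set V) ∧ S.card ≤ 3 * I.card)
    (hR : ∀ v, ∃ R, 1 ≤ R ∧ R ≤ R0 ∧ {u | G.edist v u ≤ (R : ℕ∞)}.ncard ≤ a ^ R) :
    G.Colorable (128 * a * R0 ^ 2 * (Nat.clog 2 d + 1) ^ 2) := by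
  classical
  set L := Nat.clog 2 d + 1 with hL
  have hL1 : 1 ≤ L := by omega
  obtain ⟨μ, m0, m1, m2, m3⟩ := Pool.Agent.Helper7.FracHall.main G 3 d hd hind
  have m3' : ∑ I, μ I ≤ 7 * (L : ℝ) := by
    refine m3.trans (le_of_eq ?_)
    rw [hL]; push_cast; ring
  obtain ⟨ι, i1, i2, I, hI, hK, hpos⟩ := rounding G μ L hL1 m0 m1 m2 m3'
  choose R hR1 hR2 hR3 using hR
  rcases isEmpty_or_nonempty V with hV | hV
  · exact SimpleGraph.Colorable.of_isEmpty _
  obtain ⟨v0⟩ := hV
  have hR01 : 1 ≤ R0 := (hR1 v0).trans (hR2 v0)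
  set s := 4 * R0 * L with hs
  have hs' : ∀ r ≤ R0, 1 ≤ r → 4 * (d + 1) ^ (2 * r) ≤ 2 ^ s := by
    intro r hr hr1
    calc 4 * (d + 1) ^ (2 * r) ≤ 2 ^ 2 * (2 ^ L) ^ (2 * r) :=
          Nat.mul_le_mul (by norm_num) (Nat.pow_le_pow_left (two_pow_clog d) _)
      _ = 2 ^ (2 + L * (2 * r)) := by rw [← pow_mul, ← pow_add]
      _ ≤ 2 ^ s := by
          apply Nat.pow_le_pow_right (by norm_num)
          rw [hs]
          have h1 : L * (2 * r) ≤ 2 * R0 * L := by
            calc L * (2 * r) = 2 * r * L := by ring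
              _ ≤ 2 * R0 * L := by
                apply Nat.mul_le_mul_right; omega
          have h2 : 1 ≤ R0 * L := Nat.mul_le_mul hR01 hL1
          have h3 : 4 * R0 * L = 2 * R0 * L + 2 * (R0 * L) := by ring
          omega
  have key : ∀ r, 1 ≤ r → r ≤ R0 → ∃ c : V → Fin (4 * a * (8 * L) * s),
      ∀ v, R v = r → ∀ w, R w = r → G.Adj v w → c v ≠ c w := by
    intro r hr1 hr
    obtain ⟨c, hc⟩ := class_col G a r (8 * L) s ((d + 1) ^ (2 * r)) (tdist G r) I
      (univ.filter fun v => R v = r) ha hr1 (by omega) (tdist_self r)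
      (fun v w u h => tdist_adj r u h) hI
      (by
        intro v hv
        rw [mem_filter] at hv
        have h1 := hR3 v
        rw [hv.2] at h1
        have h2 : #(univ.filter fun u => tdist G r v u ≤ r) =
            {u | G.edist v u ≤ (r : ℕ∞)}.ncard := by
          rw [← Set.ncard_coe_finset]
          congr 1
          ext u
          simp [tdist_le_iff]
        rw [h2]; exact h1)
      hK hpos (Nat.pow_pos (by omega))
      (by
        intro v _
        refine le_trans (card_le_card ?_) (card_ball hd v (2 * r))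
        intro w hw
        simp only [mem_filter, mem_univ, true_and] at hw ⊢
        obtain ⟨u, h1, h2⟩ := hw
        rw [tdist_le_iff] at h1 h2
        have h3 := G.edist_triangle (u := v) (v := u) (w := w)
        rw [G.edist_comm (u := u)] at h3
        have h4 : G.edist v u + G.edist w u ≤ (r : ℕ∞) + (r : ℕ∞) := add_le_add h1 h2
        have h5 : ((2 * r : ℕ) : ℕ∞) = (r : ℕ∞) + (r : ℕ∞) := by
          rw [two_mul, Nat.cast_add]
        rw [h5]
        exact h3.trans h4)
      (hs' r hr hr1)
    exact ⟨c, fun v hv w hw hvw => hc v (by simp [hv]) w (by simp [hw]) hvw⟩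
  have key' : ∀ r : Fin R0, ∃ c : V → Fin (4 * a * (8 * L) * s),
      ∀ v, R v = r.val + 1 → ∀ w, R w = r.val + 1 → G.Adj v w → c v ≠ c w :=
    fun r => key (r.val + 1) (by omega) (by omega)
  choose c hc using key'
  have hcol : G.Colorable (Fintype.card (Fin R0 × Fin (4 * a * (8 * L) * s))) := by
    refine SimpleGraph.Coloring.colorable (SimpleGraph.Coloring.mk
      (fun v => ((⟨R v - 1, by have := hR1 v; have := hR2 v; omega⟩ : Fin R0),
        c ⟨R v - 1, by have := hR1 v; have := hR2 v; omega⟩ v)) ?_)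
    intro v w hvw heq
    rw [Prod.mk.injEq, Fin.mk.injEq] at heq
    obtain ⟨h1, h2⟩ := heq
    have hRvw : R w = R v := by
      have := hR1 v; have := hR1 w; omega
    have h3 : (⟨R w - 1, by have := hR1 w; have := hR2 w; omega⟩ : Fin R0) =
        ⟨R v - 1, by have := hR1 v; have := hR2 v; omega⟩ := Fin.ext (by simp [hRvw])
    rw [h3] at h2
    refine hc ⟨R v - 1, by have := hR1 v; have := hR2 v; omega⟩ v ?_ w ?_ hvw h2
    · simp only; have := hR1 v; omega
    · simp only; have := hR1 v; omega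
  refine hcol.mono (le_of_eq ?_)
  rw [Fintype.card_prod, Fintype.card_fin, Fintype.card_fin, hs]
  ring

end Pool.Agent.Helper30.GR
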