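import Pool.Agent.Helper86.BF.LLL
import Pool.Agent.Helper7.FracHall.Proof

/-!
# Colouring graphs of small growth and small fractional chromatic number

Random low diameter clusters with truncated geometric radii, an independent set in every cluster,
and the local lemma.
-/

set_option autoImplicit false

namespace Pool.Agent.Helper30.GR

open Finset

section fib

variable {V β : Type*} [Fintype V] [DecidableEq V] [Fintype β] [DecidableEq β]

/-- change one coordinate -/
theorem fiber (u : V) (P : (V → β) → Prop) [DecidablePred P]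
    (hP : ∀ ω b, P (Function.update ω u b) ↔ P ω) (S S' : Finset β) :
    #(univ.filter fun ω : V → β => P ω ∧ ω u ∈ S) * #S' =
      #(univ.filter fun ω : V → β => P ω ∧ ω u ∈ S') * #S := by
  rw [← card_product, ← card_product]
  refine Finset.card_bij' (fun p _ => (Function.update p.1 u p.2, p.1 u))
    (fun p _ => (Function.update p.1 u p.2, p.1 u)) ?_ ?_ ?_ ?_
  · rintro ⟨ω, b⟩ h
    simp only [mem_product, mem_filter, mem_univ, true_and] at h ⊢
    refine ⟨⟨(hP ω b).2 h.1.1, ?_⟩, h.1.2⟩
    simpa using h.2
  · rintro ⟨ω, b⟩ h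
    simp only [mem_product, mem_filter, mem_univ, true_and] at h ⊢
    refine ⟨⟨(hP ω b).2 h.1.1, ?_⟩, h.1.2⟩
    simpa using h.2
  · rintro ⟨ω, b⟩ _
    simp
  · rintro ⟨ω, b⟩ _
    simp

end fib

theorem card_fin_lt {M t : ℕ} (h : t ≤ M) : #(univ.filter fun x : Fin M => x.val < t) = t := by
  have h1 : (univ.filter fun x : Fin M => x.val < t).image Fin.val = Finset.range t := by
    ext i
    simp only [mem_image, mem_filter, mem_univ, true_and, mem_range]
    constructor
    · rintro ⟨x, hx, rfl⟩; exact hx
    · intro hi; exact ⟨⟨i, by omega⟩, hi, rfl⟩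
  rw [← Finset.card_image_of_injective _ Fin.val_injective, h1, card_range]

/-- threshold -/
def thr (a R k : ℕ) : ℕ := if k ≤ R then (2 * a) ^ (R - k) else 0

theorem thr_succ {a R k : ℕ} (hk : k < R) : thr a R k = 2 * a * thr a R (k + 1) := by
  unfold thr
  rw [if_pos hk.le, if_pos (by omega : k + 1 ≤ R)]
  have : R - k = (R - (k + 1)) + 1 := by omega
  rw [this, pow_succ]; ring

theorem thr_anti {a R : ℕ} (ha : 1 ≤ a) : Antitone (thr a R) := by
  intro i j hij
  unfold thr
  split_ifs with h1 h2
  · exact Nat.pow_le_pow_right (by omega) (by omega)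
  · omega
  · exact Nat.zero_le _
  · exact le_rfl

theorem thr_le {a R k : ℕ} (ha : 1 ≤ a) : thr a R k ≤ (2 * a) ^ R := by
  unfold thr
  split_ifs
  · exact Nat.pow_le_pow_right (by omega) (by omega)
  · exact Nat.zero_le _

section one

variable {V ι : Type*} [Fintype V] [DecidableEq V] [Fintype ι] [DecidableEq ι]
  (G : SimpleGraph V) {M : ℕ} (a R : ℕ) (rk : V → ℕ) (D : V → V → ℕ) (I : ι → Finset V)

/-- the cluster of `u` reaches `v` -/
def Rch (ω : V → Fin M × ι) (v u : V) : Prop := (ω u).1.val < thr a R (D v u)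

/-- `v` is an interior point of the ball of `u` -/
def Itr (ω : V → Fin M × ι) (v u : V) : Prop := (ω u).1.val < thr a R (D v u + 1)

/-- `v` is coloured in this round with leader `u` -/
def ColU (ω : V → Fin M × ι) (v u : V) : Prop :=
  (∀ u', rk u' < rk u → ¬ Rch a R D ω v u') ∧ Itr a R D ω v u ∧ v ∈ I (ω u).2

/-- `v` is coloured in this round -/
def Col (ω : V → Fin M × ι) (v : V) : Prop := ∃ u, ColU a R rk D I ω v u

variable {G a R rk D I}

omit [Fintype V] [DecidableEq V] [Fintype ι] [DecidableEq ι] in
theorem rch_of_itr (ha : 1 ≤ a) {ω : V → Fin M × ι} {v w u : V}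
    (h : D w u ≤ D v u + 1) (hi : Itr a R D ω v u) : Rch a R D ω w u := by
  unfold Itr at hi; unfold Rch
  exact lt_of_lt_of_le hi (thr_anti ha h)

omit [Fintype V] [DecidableEq V] [Fintype ι] [DecidableEq ι] in
theorem col_indep (ha : 1 ≤ a) (hrk : Function.Injective rk) (hD : ∀ v w u, G.Adj v w → D w u ≤ D v u + 1)
    (hI : ∀ t, G.IsIndepSet (I t : Set V)) {ω : V → Fin M × ι} {v w : V}
    (hvw : G.Adj v w) (hv : Col a R rk D I ω v) (hw : Col a R rk D I ω w) : False := by
  obtain ⟨u, h1, h2, h3⟩ := hv
  obtain ⟨u', h1', h2', h3'⟩ := hw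
  have e1 : Rch a R D ω w u := rch_of_itr ha (hD v w u hvw) h2
  have e2 : Rch a R D ω v u' := rch_of_itr ha (hD w v u' hvw.symm) h2'
  have e3 : rk u' ≤ rk u := not_lt.1 fun hh => h1' u hh e1
  have e4 : rk u ≤ rk u' := not_lt.1 fun hh => h1 u' hh e2
  have e5 : u = u' := hrk (le_antisymm e4 e3)
  subst e5
  exact hI _ h3 h3' hvw.ne hvw

open Classical in
/-- the probability of being coloured is at least `1 / (4 a K)` -/
theorem col_prob (hM : M = (2 * a) ^ R) (ha : 1 ≤ a) (hrk : Function.Injective rk) (hR : 1 ≤ R) (K : ℕ) (v : V) (h0 : D v v = 0)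
    (hball : #(univ.filter fun u => D v u ≤ R) ≤ a ^ R)
    (hK : Fintype.card ι ≤ K * #(univ.filter fun t => v ∈ I t))
    (hpos : 0 < #(univ.filter fun t => v ∈ I t)) :
    Fintype.card (V → Fin M × ι) ≤
      4 * a * K * #(univ.filter fun ω : V → Fin M × ι => Col a R rk D I ω v) := by
  have hM1 : 1 ≤ M := by rw [hM]; exact Nat.one_le_pow _ _ (by omega)
  have thr_leM : ∀ k, thr a R k ≤ M := fun k => by rw [hM]; exact thr_le ha
  set A : V → Finset (V → Fin M × ι) := fun u => univ.filter fun ω =>
    (∀ u', rk u' < rk u → ¬ Rch a R D ω v u') ∧ ω u ∈ (univ.filter fun b : Fin M × ι =>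
      b.1.val < thr a R (D v u)) with hA
  set C : V → Finset (V → Fin M × ι) := fun u => univ.filter fun ω =>
    (∀ u', rk u' < rk u → ¬ Rch a R D ω v u') ∧ ω u ∈ (univ.filter fun b : Fin M × ι =>
      b.1.val < thr a R (D v u + 1) ∧ v ∈ I b.2) with hC
  have hinv : ∀ (u : V) (ω : V → Fin M × ι) (b : Fin M × ι),
      (∀ u', rk u' < rk u → ¬ Rch a R D (Function.update ω u b) v u') ↔ (∀ u', rk u' < rk u → ¬ Rch a R D ω v u') := by
    intro u ω b
    apply forall_congr'
    intro u'
    apply forall_congr'
    intro hu'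
    unfold Rch
    rw [Function.update_of_ne (fun hh => by rw [hh] at hu'; omega)]
  -- cards of the coordinate sets
  have cS : ∀ t, t ≤ M → #(univ.filter fun b : Fin M × ι => b.1.val < t) =
      t * Fintype.card ι := by
    intro t ht
    have : (univ.filter fun b : Fin M × ι => b.1.val < t) =
        (univ.filter fun x : Fin M => x.val < t) ×ˢ (univ : Finset ι) := by
      ext ⟨x, t'⟩; simp
    rw [this, card_product, card_fin_lt ht, card_univ]
  have cS' : ∀ t, t ≤ M → #(univ.filter fun b : Fin M × ι => b.1.val < t ∧ v ∈ I b.2) =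
      t * #(univ.filter fun t => v ∈ I t) := by
    intro t ht
    have : (univ.filter fun b : Fin M × ι => b.1.val < t ∧ v ∈ I b.2) =
        (univ.filter fun x : Fin M => x.val < t) ×ˢ (univ.filter fun t => v ∈ I t) := by
      ext ⟨x, t'⟩; simp
    rw [this, card_product, card_fin_lt ht]
  -- (2)
  have h2 : ∀ u, D v u < R → #(A u) ≤ 2 * a * K * #(C u) := by
    intro u hu
    have hf := fiber (β := Fin M × ι) u (fun ω => ∀ u', rk u' < rk u → ¬ Rch a R D ω v u') (hinv u)
      (univ.filter fun b : Fin M × ι => b.1.val < thr a R (D v u))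
      (univ.filter fun b : Fin M × ι => b.1.val < thr a R (D v u + 1) ∧ v ∈ I b.2)
    rw [cS _ (thr_leM _), cS' _ (thr_leM _), thr_succ hu] at hf
    have hthr : 0 < thr a R (D v u + 1) := by
      unfold thr; rw [if_pos (by omega)]; exact Nat.pow_pos (by omega)
    have hf' : #(A u) * (thr a R (D v u + 1) * #(univ.filter fun t => v ∈ I t)) =
      #(C u) * (2 * a * thr a R (D v u + 1) * Fintype.card ι) := by
      rw [← thr_succ hu] at hf ⊢
      convert hf
    have h3 : #(C u) * (2 * a * thr a R (D v u + 1) * Fintype.card ι) ≤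
        (2 * a * K * #(C u)) * (thr a R (D v u + 1) * #(univ.filter fun t => v ∈ I t)) := by
      calc #(C u) * (2 * a * thr a R (D v u + 1) * Fintype.card ι)
          = (2 * a * #(C u) * thr a R (D v u + 1)) * Fintype.card ι := by ring
        _ ≤ (2 * a * #(C u) * thr a R (D v u + 1)) * (K * #(univ.filter fun t => v ∈ I t)) :=
            Nat.mul_le_mul_left _ hK
        _ = _ := by ring
    rw [← hf'] at h3
    exact Nat.le_of_mul_le_mul_right h3 (Nat.mul_pos hthr hpos)
  -- (3)
  have h3 : ∀ u, D v u = R → M * #(A u) ≤ Fintype.card (V → Fin M × ι) := by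
    intro u hu
    have hsub : A u ⊆ univ.filter fun ω : V → Fin M × ι =>
        True ∧ ω u ∈ (univ.filter fun b : Fin M × ι => b.1.val < 1) := by
      intro ω hω
      simp only [hA, mem_filter, mem_univ, true_and] at hω ⊢
      have : thr a R (D v u) = 1 := by unfold thr; rw [hu, if_pos le_rfl]; simp
      rw [this] at hω; exact hω.2
    have hf := fiber (β := Fin M × ι) u (fun _ => True) (fun _ _ => Iff.rfl)
      (univ.filter fun b : Fin M × ι => b.1.val < 1) (univ.filter fun b : Fin M × ι => b.1.val < M)
    rw [cS 1 hM1, cS M le_rfl] at hf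
    have hcc : #(univ.filter fun ω : V → Fin M × ι =>
        True ∧ ω u ∈ (univ.filter fun b : Fin M × ι => b.1.val < M)) ≤
        Fintype.card (V → Fin M × ι) := by
      rw [← card_univ]; exact card_le_card (filter_subset _ _)
    have hι : 0 < Fintype.card ι := by
      have : #(univ.filter fun t => v ∈ I t) ≤ Fintype.card ι := by
        rw [← card_univ]; exact card_le_card (filter_subset _ _)
      omega
    have h4 : M * #(univ.filter fun ω : V → Fin M × ι =>
        True ∧ ω u ∈ (univ.filter fun b : Fin M × ι => b.1.val < 1)) ≤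
        Fintype.card (V → Fin M × ι) := by
      apply Nat.le_of_mul_le_mul_right _ hι
      calc M * #(univ.filter fun ω : V → Fin M × ι =>
            True ∧ ω u ∈ (univ.filter fun b : Fin M × ι => b.1.val < 1)) * Fintype.card ι
          = #(univ.filter fun ω : V → Fin M × ι =>
            True ∧ ω u ∈ (univ.filter fun b : Fin M × ι => b.1.val < 1)) *
              (M * Fintype.card ι) := by ring
        _ = _ := hf
        _ ≤ Fintype.card (V → Fin M × ι) * Fintype.card ι := by
            rw [one_mul]; exact Nat.mul_le_mul_right _ hcc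
    exact (Nat.mul_le_mul_left M (card_le_card hsub)).trans h4
  -- (4)
  have h4 : ∀ u, R < D v u → #(A u) = 0 := by
    intro u hu
    rw [card_eq_zero]
    apply filter_eq_empty_iff.2
    intro ω _ hh
    have := hh.2
    simp only [mem_filter, mem_univ, true_and] at this
    unfold thr at this
    rw [if_neg (by omega)] at this
    omega
  -- (1)
  have h1 : Fintype.card (V → Fin M × ι) ≤ ∑ u, #(A u) := by
    rw [← card_univ]
    refine (card_le_card ?_).trans card_biUnion_le
    intro ω _
    have hne : (univ.filter fun u => Rch a R D ω v u).Nonempty := by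
      refine ⟨v, ?_⟩
      simp only [mem_filter, mem_univ, true_and]
      unfold Rch
      rw [h0]
      have : thr a R 0 = M := by unfold thr; rw [if_pos (Nat.zero_le _)]; simp [hM]
      rw [this]; exact (ω v).1.isLt
    obtain ⟨u, hu1, hu2⟩ := Finset.exists_min_image _ rk hne
    rw [mem_biUnion]
    refine ⟨u, mem_univ _, ?_⟩
    simp only [mem_filter, mem_univ, true_and] at hu1
    simp only [hA, mem_filter, mem_univ, true_and]
    refine ⟨?_, hu1⟩
    intro u' hu' hr
    have := hu2 u' (by simp only [mem_filter, mem_univ, true_and]; exact hr)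
    exact absurd hu' (not_lt.2 this)
  -- (5)
  have h5 : ∑ u, #(C u) ≤
      #(univ.filter fun ω : V → Fin M × ι => Col a R rk D I ω v) := by
    rw [← card_biUnion]
    · apply card_le_card
      intro ω hω
      rw [mem_biUnion] at hω
      obtain ⟨u, _, hu⟩ := hω
      simp only [hC, mem_filter, mem_univ, true_and] at hu
      simp only [mem_filter, mem_univ, true_and]
      exact ⟨u, hu.1, hu.2.1, hu.2.2⟩
    · intro u _ u' _ huu'
      rw [Function.onFun, Finset.disjoint_left]
      intro ω h h'
      simp only [hC, mem_filter, mem_univ, true_and] at h h'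
      have r1 : Rch a R D ω v u := lt_of_lt_of_le h.2.1 (thr_anti ha (Nat.le_succ _))
      have r2 : Rch a R D ω v u' := lt_of_lt_of_le h'.2.1 (thr_anti ha (Nat.le_succ _))
      rcases lt_or_gt_of_ne (fun hh => huu' (hrk hh)) with hh | hh
      · exact h'.1 u hh r1
      · exact h.1 u' hh r2
  -- sums
  have hsplit : ∑ u, #(A u) ≤ ∑ u ∈ univ.filter (fun u => D v u < R), #(A u) +
      ∑ u ∈ univ.filter (fun u => D v u = R), #(A u) := by
    rw [sum_filter, sum_filter, ← sum_add_distrib]
    apply sum_le_sum
    intro u _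
    rcases lt_trichotomy (D v u) R with hh | hh | hh
    · rw [if_pos hh, if_neg hh.ne]; omega
    · rw [if_neg (by omega), if_pos hh]; omega
    · rw [h4 u hh]; omega
  have hB : 2 * ∑ u ∈ univ.filter (fun u => D v u = R), #(A u) ≤
      Fintype.card (V → Fin M × ι) := by
    have e1 : M * ∑ u ∈ univ.filter (fun u => D v u = R), #(A u) ≤
        a ^ R * Fintype.card (V → Fin M × ι) := by
      rw [mul_sum]
      calc ∑ u ∈ univ.filter (fun u => D v u = R), M * #(A u)
          ≤ ∑ _u ∈ univ.filter (fun u => D v u = R), Fintype.card (V → Fin M × ι) := by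
            apply sum_le_sum
            intro u hu
            exact h3 u (mem_filter.1 hu).2
        _ = #(univ.filter (fun u => D v u = R)) * Fintype.card (V → Fin M × ι) := by
            rw [sum_const, smul_eq_mul]
        _ ≤ a ^ R * Fintype.card (V → Fin M × ι) := by
            apply Nat.mul_le_mul_right
            refine le_trans (card_le_card ?_) hball
            intro u hu
            rw [mem_filter] at hu ⊢
            exact ⟨hu.1, hu.2.le⟩
    have e2 : M = a ^ R * 2 ^ R := by rw [hM, mul_pow]; ring
    have e3 : a ^ R * (2 ^ R * ∑ u ∈ univ.filter (fun u => D v u = R), #(A u)) ≤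
        a ^ R * Fintype.card (V → Fin M × ι) := by
      calc a ^ R * (2 ^ R * ∑ u ∈ univ.filter (fun u => D v u = R), #(A u))
          = (a ^ R * 2 ^ R) * ∑ u ∈ univ.filter (fun u => D v u = R), #(A u) := by ring
        _ = M * ∑ u ∈ univ.filter (fun u => D v u = R), #(A u) :=
            congrArg (fun z => z * ∑ u ∈ univ.filter (fun u => D v u = R), #(A u)) e2.symm
        _ ≤ _ := e1
    have e4 := Nat.le_of_mul_le_mul_left e3 (Nat.pow_pos (by omega))
    have e5 : 2 ≤ 2 ^ R := by
      calc 2 = 2 ^ 1 := by norm_num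
        _ ≤ 2 ^ R := Nat.pow_le_pow_right (by norm_num) hR
    exact (Nat.mul_le_mul_right _ e5).trans e4
  have hA' : ∑ u ∈ univ.filter (fun u => D v u < R), #(A u) ≤ 2 * a * K *
      #(univ.filter fun ω : V → Fin M × ι => Col a R rk D I ω v) := by
    calc ∑ u ∈ univ.filter (fun u => D v u < R), #(A u)
        ≤ ∑ u ∈ univ.filter (fun u => D v u < R), 2 * a * K * #(C u) := by
          apply sum_le_sum
          intro u hu
          exact h2 u (mem_filter.1 hu).2
      _ = 2 * a * K * ∑ u ∈ univ.filter (fun u => D v u < R), #(C u) := by rw [mul_sum]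
      _ ≤ 2 * a * K * ∑ u, #(C u) := by
          apply Nat.mul_le_mul_left
          exact sum_le_sum_of_subset (filter_subset _ _)
      _ ≤ _ := Nat.mul_le_mul_left _ h5
  have e6 : 4 * a * K * #(univ.filter fun ω : V → Fin M × ι => Col a R rk D I ω v) =
      2 * (2 * a * K * #(univ.filter fun ω : V → Fin M × ι => Col a R rk D I ω v)) := by ring
  rw [e6]
  omega

end one

end Pool.Agent.Helper30.GR
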