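import Pool.Agent.Helper30.GR.Growth

/-!
# Many rounds and the local lemma
-/

set_option autoImplicit false

namespace Pool.Agent.Helper30.GR

open Finset

theorem two_mul_pred_pow (n : ℕ) (hn : 1 ≤ n) : 2 * (n - 1) ^ n ≤ n ^ n := by
  obtain ⟨m, rfl⟩ : ∃ m, n = m + 1 := ⟨n - 1, by omega⟩
  rw [Nat.add_sub_cancel]
  -- (m+1)^(m+1) ≥ m^(m+1) + (m+1) m^m
  have h : ∀ k, m ^ (k + 1) + (k + 1) * m ^ k ≤ (m + 1) ^ (k + 1) := by
    intro k
    induction k with
    | zero => simp
    | succ k ih =>
      calc m ^ (k + 1 + 1) + (k + 1 + 1) * m ^ (k + 1)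
          ≤ (m ^ (k + 1) + (k + 1) * m ^ k) * (m + 1) := by
            have e : (m ^ (k + 1) + (k + 1) * m ^ k) * (m + 1) =
              (m ^ (k + 1 + 1) + (k + 1 + 1) * m ^ (k + 1)) + (k + 1) * m ^ k := by ring
            rw [e]; exact Nat.le_add_right _ _
        _ ≤ (m + 1) ^ (k + 1) * (m + 1) := Nat.mul_le_mul_right _ ih
        _ = (m + 1) ^ (k + 1 + 1) := by ring
  have h1 := h m
  calc 2 * m ^ (m + 1) = m ^ (m + 1) + m * m ^ m := by ring
    _ ≤ m ^ (m + 1) + (m + 1) * m ^ m := by
        apply Nat.add_le_add_left; apply Nat.mul_le_mul_right; omega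
    _ ≤ _ := h1

theorem pow_two_mul (n s : ℕ) (hn : 1 ≤ n) : 2 ^ s * (n - 1) ^ (n * s) ≤ n ^ (n * s) := by
  rw [pow_mul, pow_mul, ← mul_pow]
  exact Nat.pow_le_pow_left (two_mul_pred_pow n hn) s

/-- many independent rounds -/
theorem card_rounds {V β : Type*} [Fintype V] [DecidableEq V] [Fintype β] [DecidableEq β]
    (q : ℕ) (U : Finset (V → β)) :
    #(univ.filter fun ω : V → (Fin q → β) => ∀ i, (fun u => ω u i) ∈ U) = #U ^ q := by
  classical
  have h1 : #(Fintype.piFinset fun _ : Fin q => U) = #U ^ q := by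
    rw [Fintype.card_piFinset]; simp
  rw [← h1]
  apply Finset.card_bij' (fun ω _ => fun i u => ω u i) (fun g _ => fun u i => g i u)
  · intro ω h
    simp only [mem_filter, mem_univ, true_and] at h
    rw [Fintype.mem_piFinset]
    exact h
  · intro g h
    rw [Fintype.mem_piFinset] at h
    simp only [mem_filter, mem_univ, true_and]
    exact h
  · intro ω _; rfl
  · intro g _; rfl

open Classical in
/-- colouring the vertices of `J0` whose balls of radius `R` are small -/
theorem class_col {V ι : Type*} [Fintype V] [DecidableEq V] [Fintype ι] [DecidableEq ι]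
    (G : SimpleGraph V) (a R K s Δ : ℕ) (D : V → V → ℕ) (I : ι → Finset V) (J0 : Finset V)
    (ha : 1 ≤ a) (hR : 1 ≤ R) (hK1 : 1 ≤ K)
    (hD0 : ∀ v, D v v = 0) (hD : ∀ v w u, G.Adj v w → D w u ≤ D v u + 1)
    (hI : ∀ t, G.IsIndepSet (I t : Set V))
    (hball : ∀ v ∈ J0, #(univ.filter fun u => D v u ≤ R) ≤ a ^ R)
    (hK : ∀ v, Fintype.card ι ≤ K * #(univ.filter fun t => v ∈ I t))
    (hpos : ∀ v, 0 < #(univ.filter fun t => v ∈ I t))
    (hΔ0 : 0 < Δ)
    (hΔ : ∀ v ∈ J0, #(univ.filter fun w => ∃ u, D v u ≤ R ∧ D w u ≤ R) ≤ Δ)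
    (hs : 4 * Δ ≤ 2 ^ s) :
    ∃ c : V → Fin (4 * a * K * s), ∀ v ∈ J0, ∀ w ∈ J0, G.Adj v w → c v ≠ c w := by
  rcases J0.eq_empty_or_nonempty with hJ | ⟨v0, hv0⟩
  · have hs1 : 1 ≤ s := by
      by_contra h
      have : s = 0 := by omega
      rw [this] at hs; simp at hs; omega
    have hpos' : 0 < 4 * a * K * s := by positivity
    refine ⟨fun _ => ⟨0, hpos'⟩, ?_⟩
    intro v hv; rw [hJ] at hv; simp at hv
  set rk : V → ℕ := fun v => (Fintype.equivFin V v).val with hrk
  have hrki : Function.Injective rk := by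
    intro u v h
    exact (Fintype.equivFin V).injective (Fin.ext h)
  obtain ⟨M, hM⟩ : ∃ M, M = (2 * a) ^ R := ⟨_, rfl⟩
  have hM1 : 1 ≤ M := by rw [hM]; exact Nat.one_le_pow _ _ (by omega)
  set n := 4 * a * K with hn
  have hn1 : 1 ≤ n := by
    rw [hn]
    have : 0 < 4 * a * K := by positivity
    omega
  set q := n * s with hq
  -- uncoloured configurations
  set U : V → Finset (V → Fin M × ι) := fun v =>
    univ.filter fun ω => ¬ Col a R rk D I ω v with hU
  have hUc : ∀ v ∈ J0, n * #(U v) ≤ (n - 1) * Fintype.card (V → Fin M × ι) := by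
    intro v hv
    have h1 := col_prob (M := M) (rk := rk) (I := I) hM ha hrki hR K v (hD0 v) (hball v hv) (hK v)
      (hpos v)
    have h2 : #(univ.filter fun ω : V → Fin M × ι => Col a R rk D I ω v) + #(U v) =
        Fintype.card (V → Fin M × ι) := by
      rw [← card_univ, hU]
      exact card_filter_add_card_filter_not _
    set c1 := #(univ.filter fun ω : V → Fin M × ι => Col a R rk D I ω v)
    have h3 : n * #(U v) + n * c1 = n * Fintype.card (V → Fin M × ι) := by
      rw [← h2]; ring
    have h4 : Fintype.card (V → Fin M × ι) ≤ n * c1 := h1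
    have h5 : (n - 1) * Fintype.card (V → Fin M × ι) + Fintype.card (V → Fin M × ι) =
        n * Fintype.card (V → Fin M × ι) := by
      obtain ⟨m, hm⟩ : ∃ m, n = m + 1 := ⟨n - 1, by omega⟩
      rw [hm]; simp; ring
    omega
  have hne : Nonempty (Fin q → Fin M × ι) := by
    have h1 := hpos v0
    rw [card_pos] at h1
    obtain ⟨t, _⟩ := h1
    exact ⟨fun _ => (⟨0, by omega⟩, t)⟩
  set B : {v // v ∈ J0} → Finset (V → (Fin q → Fin M × ι)) := fun v =>
    univ.filter fun ω => ∀ i, (fun u => ω u i) ∈ U v.1 with hB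
  have hBc : ∀ v, #(B v) = #(U v.1) ^ q := fun v => card_rounds q (U v.1)
  obtain ⟨ω, hω⟩ := Pool.Agent.Helper86.BF.lll B (fun v => univ.filter fun u => D v.1 u ≤ R)
    (by
      intro v ω ω' hh
      have key : ∀ i, (Col a R rk D I (fun u => ω u i) v.1 ↔
          Col a R rk D I (fun u => ω' u i) v.1) := by
        intro i
        have hr : ∀ u, Rch a R D (fun u => ω u i) v.1 u ↔ Rch a R D (fun u => ω' u i) v.1 u := by
          intro u
          unfold Rch
          by_cases hu : D v.1 u ≤ R
          · simp only [hh u (by simp [hu])]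
          · unfold thr; rw [if_neg hu]; simp
        unfold Col ColU
        apply exists_congr
        intro u
        by_cases hu : D v.1 u ≤ R
        · have hωu := hh u (by simp [hu])
          unfold Itr
          simp only [hr, hωu]
        · have : ∀ ω : V → Fin M × ι, ¬ Itr a R D ω v.1 u := by
            intro ω hi
            unfold Itr thr at hi
            rw [if_neg (by omega)] at hi
            omega
          constructor
          · intro h; exact absurd h.2.1 (this _)
          · intro h; exact absurd h.2.1 (this _)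
      simp only [hB, hU, mem_filter, mem_univ, true_and, key])
    Δ hΔ0
    (by
      intro v
      rw [hBc]
      have h1 := hUc v.1 v.2
      have h2 : Fintype.card (V → (Fin q → Fin M × ι)) =
          Fintype.card (V → Fin M × ι) ^ q := by
        simp only [Fintype.card_fun]
        rw [← pow_mul, ← pow_mul, mul_comm, Fintype.card_fin]
      rw [h2]
      have h3 := Nat.pow_le_pow_left h1 q
      rw [mul_pow n, mul_pow (n - 1)] at h3
      have h4 := pow_two_mul n s hn1
      rw [← hq] at h4
      have hnq : 0 < n ^ q := Nat.pow_pos hn1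
      apply Nat.le_of_mul_le_mul_left _ hnq
      calc n ^ q * (4 * Δ * #(U v.1) ^ q) = 4 * Δ * (n ^ q * #(U v.1) ^ q) := by ring
        _ ≤ 2 ^ s * ((n - 1) ^ q * Fintype.card (V → Fin M × ι) ^ q) :=
            Nat.mul_le_mul hs h3
        _ = (2 ^ s * (n - 1) ^ q) * Fintype.card (V → Fin M × ι) ^ q := by ring
        _ ≤ n ^ q * Fintype.card (V → Fin M × ι) ^ q := Nat.mul_le_mul_right _ h4)
    (by
      intro v
      refine le_trans ?_ (hΔ v.1 v.2)
      apply Finset.card_le_card_of_injOn (fun w => w.1)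
      · intro w hw
        rw [Finset.mem_coe, mem_filter, Finset.not_disjoint_iff] at hw
        obtain ⟨_, u, hu1, hu2⟩ := hw
        simp only [mem_filter, mem_univ, true_and] at hu1 hu2
        simp only [Finset.coe_filter, Set.mem_ofPred_eq, mem_univ, true_and]
        exact ⟨u, hu1, hu2⟩
      · intro w _ w' _ h; exact Subtype.ext h)
  have hc : ∀ v : {v // v ∈ J0}, ∃ i : Fin q, Col a R rk D I (fun u => ω u i) v.1 := by
    intro v
    have := hω v
    simp only [hB, hU, mem_filter, mem_univ, true_and, not_forall, not_not] at this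
    exact this
  choose c hc using hc
  have hq0 : 0 < q := by
    have := (c ⟨v0, hv0⟩).isLt; omega
  refine ⟨fun v => if h : v ∈ J0 then c ⟨v, h⟩ else ⟨0, hq0⟩, ?_⟩
  intro v hv w hw hvw hcc
  simp only [hv, hw, dif_pos] at hcc
  have h1 := hc ⟨v, hv⟩
  have h2 := hc ⟨w, hw⟩
  rw [← hcc] at h2
  exact col_indep ha hrki hD hI hvw h1 h2

end Pool.Agent.Helper30.GR
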